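import Pool.Agent.H76.KAC.Main

open MeasureTheory ProbabilityTheory Filter Topology

namespace Pool.Agent.Results.MP_9bdf03_pr.InfinitelyOftenBelow

/-- Let `a 0, a 1, ...` be independent standard normal random variables on a probability space and
let `N_n` be the number of distinct real zeros of `a 0 + a 1 x + ... + a n x ^ n`.  With positive
probability `N_n ≤ (2/π - e) log n` for infinitely many `n`, where
`e = (1 - exp (-1/4)) / (20 π) > 0`; in particular `N_n / log n` does not converge almost surely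
to `2/π`. -/
theorem result (Ω : Type*) [MeasurableSpace Ω] (μ : Measure Ω) [IsProbabilityMeasure μ]
    (a : ℕ → Ω → ℝ) (hm : ∀ k, Measurable (a k)) (hi : iIndepFun a μ)
    (hg : ∀ k, μ.map (a k) = gaussianReal 0 1) :
    0 < μ {ω | ∃ᶠ n : ℕ in atTop,
        ({x : ℝ | ∑ k ∈ Finset.range (n + 1), a k ω * x ^ k = 0}.ncard : ℝ) ≤
          (2 / Real.pi - (1 - Real.exp (-(1/4))) / (20 * Real.pi)) * Real.log n} ∧
      ¬ ∀ᵐ ω ∂μ, Tendsto (fun n : ℕ =>
        ({x : ℝ | ∑ k ∈ Finset.range (n + 1), a k ω * x ^ k = 0}.ncard : ℝ) / Real.log n)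
        atTop (𝓝 (2 / Real.pi)) :=
  ⟨Pool.Agent.H76.KAC.main Ω μ a hm hi hg, Pool.Agent.H76.KAC.main2 Ω μ a hm hi hg⟩

end Pool.Agent.Results.MP_9bdf03_pr.InfinitelyOftenBelow
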